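import Mathlib
import Pool.Agent.H683R2.FourierD
import Pool.Agent.H683R2.FourierE

set_option autoImplicit false

namespace Pool.Agent.Results.MP_f91556_lc.QuadraticLowerBound

open Pool.Agent.H683R2.FS

/-- No algorithm multiplies every `m × m` submatrix of every Fourier matrix by every vector with
`o(m ^ 2)` arithmetic operations: every correct algorithm needs at least `m ^ 2 / 8` operations on
some input, for every `m ≥ 2`; and `2 * m ^ 2` operations suffice. -/
theorem result :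
    (∀ A : Alg, A.Correct → ∀ m : ℕ, 2 ≤ m → ∃ d : ℕ, m ≤ d ∧ ∃ R C : Fin m → Fin d,
      StrictMono R ∧ StrictMono C ∧ ∃ v : Fin m → ℂ, m ^ 2 ≤ 8 * (A m d R C).ops v) ∧
    (¬ ∃ (A : Alg) (T : ℕ → ℕ), A.Correct ∧
      (∀ (m d : ℕ) (R C : Fin m → Fin d), StrictMono R → StrictMono C →
        ∀ v : Fin m → ℂ, (A m d R C).ops v ≤ T m) ∧
      (fun m => (T m : ℝ)) =o[Filter.atTop] (fun m => (m : ℝ) ^ 2)) ∧
    (∃ A : Alg, A.Correct ∧ ∀ (m d : ℕ) (R C : Fin m → Fin d) (v : Fin m → ℂ),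
      (A m d R C).ops v ≤ 2 * m ^ 2) := by
  refine ⟨fun A hA m hm => lower A hA m hm, ?_, naive, ?_, ?_⟩
  · rintro ⟨A, T, hA, hT, ho⟩
    rw [Asymptotics.isLittleO_iff] at ho
    have h1 := ho (c := 1 / 16) (by norm_num)
    obtain ⟨m, hm, h2⟩ := (h1.and (Filter.eventually_ge_atTop 2)).exists
    obtain ⟨d, _, R, C, hR, hC, v, hv⟩ := lower A hA m h2
    have h3 := hT m d R C hR hC v
    have h4 : ((m : ℝ)) ^ 2 ≤ 8 * (T m : ℝ) := by
      have : m ^ 2 ≤ 8 * T m := hv.trans (Nat.mul_le_mul_left _ h3)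
      exact_mod_cast this
    rw [Real.norm_of_nonneg (Nat.cast_nonneg _), Real.norm_of_nonneg (by positivity)] at hm
    have h5 : (2 : ℝ) ≤ m := by exact_mod_cast h2
    nlinarith
  · intro m d R C _ _ v
    exact (naive_spec R C v).1
  · intro m d R C v
    exact (naive_spec R C v).2.le

end Pool.Agent.Results.MP_f91556_lc.QuadraticLowerBound
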